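import Pool.Agent.L0h34.OM.Generic

/-!
# Sets complete for polynomial space, relative to a generic oracle

Relative to a generic oracle (for the oracles in a comeager set), every set in polynomial space reduces to
every complete set for polynomial space by a one-one length-increasing polynomial-time function. So
all the sets which are complete for polynomial space are one-one equivalent. For the
complete sets of `NP` this fails relative to generic oracles (Kurtz).

Proof idea. Mask a set `B` in polynomial space by parities of the oracle over regions of long addresses:
this gives again a set `T` in polynomial space, so `T` has a reduction `h` to the complete set `A`. A finite
part of the oracle forces that `h` is a reduction. The regions can be chosen so large that `h`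
cannot read all of a region, and so small that its parity is computable in polynomial
time. If two masked instances had the same image, or if an image were short, then the change of one unread
bit of a region would falsify the reduction.
-/

set_option autoImplicit false

namespace Pool.Agent.Results.MP_8a92de_lc.GenericPSPACE

open Pool.Agent.L0h34.OM

theorem result : ∀ᶠ G in residual Oracle, ∀ A B : Set (List Bool),
    CompletePSPACE G A → PSPACE G B → OneOneLI G B A := main

end Pool.Agent.Results.MP_8a92de_lc.GenericPSPACE
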