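import Pool.Agent.L0h34.RO.Red

/-!
# Sets complete for polynomial space, relative to a random oracle

Relative to almost every oracle, every set in polynomial space reduces to every many-one complete set
for polynomial space by a one-one length-increasing polynomial-time function. So the complete sets
for polynomial space form a single 1-degree.

Proof idea. Let `B` be in polynomial space. Mask `B`: an instance consists of bits `p`, `p'`, a string
`v` of length `3 m` and an instance `x` of `B`; it is accepted if for some `s` of length `m` the string `v` is
written in the oracle at the places of `s`, and the two hidden bits of the oracle at the places of `s` are
such that either the first one differs from `p` and `x` is in `B`, or the second one differs from `p'`. This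
set `T` has a reduction `h` to the complete set `A`. For a random seed `s` (read from the oracle at private
addresses of `x`) one can form an instance that is equivalent to `x`, but `h` cannot find `s`. If the
image of this instance were short, or if two such instances had the same image, the change of
one hidden bit would falsify the reduction. The first failures for different `x` lead to disjoint sets of
changed oracles, so failures for arbitrarily long `x` have probability zero.
-/

set_option autoImplicit false

namespace Pool.Agent.Results.MP_8a92de_lc.RandomPSPACE

open Pool.Agent.L0h34.OM Pool.Agent.L0h34.RO

theorem result : ∀ᵐ R ∂randomOracle, ∀ A B : Set (List Bool),
    CompleteFor R (PSPACEU R) A → PSPACEU R B → OneOneLIU R B A := main_PSPACE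

end Pool.Agent.Results.MP_8a92de_lc.RandomPSPACE
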