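import Pool.Agent.L0h34.SD.Final

/-!
# Thin complete sets, with `P ≠ NP = PSPACE`

For each function `s` that is eventually larger than each polynomial there is an oracle `R` such that
`P ≠ NP = PSPACE` relative to `R`, and there are complete sets `A`, `K` for this class such that `A` has at
most `s n` elements of length at most `n` (for all large `n`), and `K` cannot be reduced to `A` by any
injective function with polynomially bounded lengths, computable or not. So the complete sets for `NP`
and the complete sets for `PSPACE` do not form a single 1-degree relative to `R`.

Proof idea. The oracle gives to each string `v` of length `n` a name, a string of length `n` with only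
few free bits (less than `s n / n` names), and the exclusive or of the value of `v` and of the value of
its name. The values of the strings are the answers to the questions whether machines with bounded space, and
verifiers, accept, for computations relative to the same oracle. The value of a name is the value of
one of the strings with this name, masked by a hidden bit; the oracle has codes for the values of the
names, which contain a witness that cannot be found by a fast machine. So `x ∈ K` reduces to a pair
of a bit and a name, which gives `A`. For a fast program one gives names to the strings step by
step, as they occur in the questions; less than `s n / n` names are necessary, and the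
program does not find the value of its input.
-/

set_option autoImplicit false

namespace Pool.Agent.Results.MP_8a92de_lc.ThinComplete

open Pool.Agent.L0h34.OM Pool.Agent.L0h34.RO

theorem result : ∀ s : ℕ → ℕ, (∀ c : ℕ, ∃ N, ∀ n ≥ N, n ^ c ≤ s n) →
    ∃ (R : Oracle) (A K : Set (List Bool)),
      (∀ B, PSPACEU R B ↔ NPU R B) ∧
      (∀ f, FPU R f → ∃ x, ¬ (x ∈ K ↔ f x ≠ [])) ∧
      CompleteFor R (NPU R) A ∧ CompleteFor R (NPU R) K ∧
      (¬ ∃ f, FPU R f ∧ Function.Injective f ∧ ∀ x, x ∈ K ↔ f x ∈ A) ∧
      (∀ (c : ℕ) (f : List Bool → List Bool), Function.Injective f →
        (∀ x : List Bool, (f x).length ≤ x.length ^ c + c) → ∃ x, ¬ (x ∈ K ↔ f x ∈ A)) ∧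
      ∃ N, ∀ n ≥ N, {z | z ∈ A ∧ z.length ≤ n}.ncard ≤ s n :=
  fun _ hs => Pool.Agent.L0h34.SD.main_SD hs

end Pool.Agent.Results.MP_8a92de_lc.ThinComplete
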